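import Pool.Agent.helper64.NQ.Spec

/-!
# NQ, row JRR: the sum over the generating pairs of `C_r × C_r`
-/

set_option autoImplicit false

namespace Pool.Agent.NQ

open Pool.Agent.helper58.DC Pool.Agent.DI Pool.Agent.DR

section

variable {Q : Type} [Group Q] {N : Subgroup Q} {ω : Q → Q → ℂˣ}

theorem JRR_one_left (h : IsAlt N ω) (y : Q) (hy : y ∈ N) : ω 1 y = 1 := by
  have h1 := h.mul_left 1 N.one_mem 1 N.one_mem y hy
  rw [mul_one] at h1
  exact left_eq_mul.1 h1

theorem JRR_one_right (h : IsAlt N ω) (y : Q) (hy : y ∈ N) : ω y 1 = 1 := by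
  have h1 := h.mul_right y hy 1 N.one_mem 1 N.one_mem
  rw [mul_one] at h1
  exact left_eq_mul.1 h1

/-- left annihilator -/
def JRR_L (h : IsAlt N ω) (y : Q) (hy : y ∈ N) : Subgroup Q where
  carrier := {u | u ∈ N ∧ ω u y = 1}
  mul_mem' := by
    rintro a b ⟨ha, ha'⟩ ⟨hb, hb'⟩
    exact ⟨N.mul_mem ha hb, by rw [h.mul_left a ha b hb y hy, ha', hb', one_mul]⟩
  one_mem' := ⟨N.one_mem, JRR_one_left h y hy⟩
  inv_mem' := by
    rintro a ⟨ha, ha'⟩
    refine ⟨N.inv_mem ha, ?_⟩
    have h1 := h.mul_left a⁻¹ (N.inv_mem ha) a ha y hy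
    rw [inv_mul_cancel, JRR_one_left h y hy, ha', mul_one] at h1
    exact h1.symm

/-- right annihilator -/
def JRR_R (h : IsAlt N ω) (y : Q) (hy : y ∈ N) : Subgroup Q where
  carrier := {u | u ∈ N ∧ ω y u = 1}
  mul_mem' := by
    rintro a b ⟨ha, ha'⟩ ⟨hb, hb'⟩
    exact ⟨N.mul_mem ha hb, by rw [h.mul_right y hy a ha b hb, ha', hb', one_mul]⟩
  one_mem' := ⟨N.one_mem, JRR_one_right h y hy⟩
  inv_mem' := by
    rintro a ⟨ha, ha'⟩
    refine ⟨N.inv_mem ha, ?_⟩
    have h1 := h.mul_right y hy a⁻¹ (N.inv_mem ha) a ha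
    rw [inv_mul_cancel, JRR_one_right h y hy, ha', mul_one] at h1
    exact h1.symm

theorem JRR_anti (h : IsAlt N ω) (y z : Q) (hy : y ∈ N) (hz : z ∈ N) (h1 : ω y z = 1) :
    ω z y = 1 := by
  have h2 := h.self (y * z) (N.mul_mem hy hz)
  rw [h.mul_left y hy z hz _ (N.mul_mem hy hz), h.mul_right y hy y hy z hz,
    h.mul_right z hz y hy z hz, h.self y hy, h.self z hz, h1, one_mul, one_mul, mul_one] at h2
  exact h2

/-- cyclic pairs -/
theorem JRR_cyc (h : IsAlt N ω) (y z : Q) (hy : y ∈ N) (hz : z ∈ Subgroup.zpowers y) :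
    ω y z = 1 := by
  have h1 : Subgroup.zpowers y ≤ JRR_R h y hy := by
    rw [Subgroup.zpowers_le]
    exact ⟨hy, h.self y hy⟩
  exact (h1 hz).2

variable [Finite Q] {r : ℕ}

omit [Finite Q] in
theorem JRR_ord (hr : r.Prime) (hexp : ∀ x ∈ N, x ^ r = 1) (y : Q) (hy : y ∈ N) (hy1 : y ≠ 1) :
    Nat.card (Subgroup.zpowers y) = r := by
  have := Fact.mk hr
  rw [Nat.card_zpowers]
  exact orderOf_eq_prime (hexp y hy) hy1

/-- generating pairs -/
theorem JRR_gen (hr : r.Prime) (hN : Nat.card N = r ^ 2) (hexp : ∀ x ∈ N, x ^ r = 1) (y z : Q)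
    (hy : y ∈ N) (hy1 : y ≠ 1) (hz : z ∈ N) :
    Subgroup.closure {y, z} = N ↔ z ∉ Subgroup.zpowers y := by
  have hord := JRR_ord hr hexp y hy hy1
  constructor
  · intro hcl hzy
    have h1 : Subgroup.closure {y, z} ≤ Subgroup.zpowers y := by
      rw [Subgroup.closure_le]
      rintro x (rfl | rfl)
      · exact Subgroup.mem_zpowers _
      · exact hzy
    rw [hcl] at h1
    have h2 := Subgroup.card_dvd_of_le h1
    rw [hord, hN] at h2
    have h3 := Nat.le_of_dvd hr.pos h2
    have h4 := hr.two_le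
    nlinarith
  · intro hzy
    have h1 : Subgroup.closure {y, z} ≤ N := by
      rw [Subgroup.closure_le]
      rintro x (rfl | rfl)
      · exact hy
      · exact hz
    have h2 : Subgroup.zpowers y ≤ Subgroup.closure {y, z} := by
      rw [Subgroup.zpowers_le]
      exact Subgroup.subset_closure (Set.mem_insert _ _)
    have hz2 : z ∈ Subgroup.closure {y, z} :=
      Subgroup.subset_closure (Set.mem_insert_of_mem _ rfl)
    have h3 := Subgroup.card_dvd_of_le h1
    rw [hN] at h3
    obtain ⟨m, hm, hm2⟩ := (Nat.dvd_prime_pow hr).1 h3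
    have h4 := Subgroup.card_dvd_of_le h2
    rw [hord, hm2] at h4
    have h5 := Nat.le_of_dvd (Nat.pow_pos hr.pos) h4
    interval_cases m
    · rw [pow_zero] at h5
      exact absurd h5 (not_le.2 hr.one_lt)
    · exfalso
      apply hzy
      have h6 : Subgroup.zpowers y = Subgroup.closure {y, z} :=
        Subgroup.eq_of_le_of_card_ge h2 (by rw [hord, hm2, pow_one])
      rw [h6]
      exact hz2
    · exact Subgroup.eq_of_le_of_card_ge h1 (by rw [hN, hm2])

open Classical in
/-- indicator of the generating pairs -/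
theorem JRR_ind (hr : r.Prime) (hN : Nat.card N = r ^ 2) (hexp : ∀ x ∈ N, x ^ r = 1) (y z : Q) :
    (if Subgroup.closure {y, z} = N then (1 : ℂ) else 0) =
      ((if y ∈ N then (1 : ℂ) else 0) - if y = 1 then (1 : ℂ) else 0) *
        ((if z ∈ N then (1 : ℂ) else 0) - if z ∈ Subgroup.zpowers y then (1 : ℂ) else 0) := by
  have hr2 := hr.two_le
  by_cases hy : y ∈ N
  · by_cases hy1 : y = 1
    · rw [if_pos hy, if_pos hy1, sub_self, zero_mul, if_neg]
      intro hcl
      subst hy1
      have hz : z ∈ N := by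
        rw [← hcl]
        exact Subgroup.subset_closure (Set.mem_insert_of_mem _ rfl)
      have h1 : Subgroup.closure {1, z} ≤ Subgroup.zpowers z := by
        rw [Subgroup.closure_le]
        rintro x (rfl | rfl)
        · exact Subgroup.one_mem _
        · exact Subgroup.mem_zpowers _
      rw [hcl] at h1
      have h2 := Subgroup.card_dvd_of_le h1
      rw [hN] at h2
      by_cases hz1 : z = 1
      · rw [hz1, Nat.card_zpowers, orderOf_one] at h2
        have h3 := Nat.le_of_dvd one_pos h2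
        nlinarith
      · rw [JRR_ord hr hexp z hz hz1] at h2
        have h3 := Nat.le_of_dvd hr.pos h2
        nlinarith
    · rw [if_pos hy, if_neg hy1, sub_zero, one_mul]
      by_cases hz : z ∈ N
      · rw [if_pos hz]
        by_cases hzy : z ∈ Subgroup.zpowers y
        · rw [if_pos hzy, sub_self, if_neg]
          rw [JRR_gen hr hN hexp y z hy hy1 hz]
          exact fun h => h hzy
        · rw [if_neg hzy, sub_zero, if_pos]
          rw [JRR_gen hr hN hexp y z hy hy1 hz]
          exact hzy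
      · have hzy : z ∉ Subgroup.zpowers y := fun h =>
          hz ((Subgroup.zpowers_le.2 hy) h)
        rw [if_neg hz, if_neg hzy, sub_self, if_neg]
        intro hcl
        apply hz
        rw [← hcl]
        exact Subgroup.subset_closure (Set.mem_insert_of_mem _ rfl)
  · have hy1 : y ≠ 1 := fun h => hy (h ▸ N.one_mem)
    rw [if_neg hy, if_neg hy1, sub_self, zero_mul, if_neg]
    intro hcl
    apply hy
    rw [← hcl]
    exact Subgroup.subset_closure (Set.mem_insert _ _)

open Classical in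
omit [Finite Q] in
theorem JRR_card [Fintype Q] (H : Subgroup Q) :
    ∑ z : Q, (if z ∈ H then (1 : ℂ) else 0) = (Nat.card H : ℂ) := by
  rw [Finset.sum_boole, Nat.card_eq_fintype_card, Fintype.card_subtype]

open Classical in
/-- the number of the generating pairs -/
theorem JRR_sum [Fintype Q] (hr : r.Prime) (hN : Nat.card N = r ^ 2)
    (hexp : ∀ x ∈ N, x ^ r = 1) :
    ∑ x : Q × Q, (if Subgroup.closure {x.1, x.2} = N then (1 : ℂ) else 0) =
      ((r : ℂ) ^ 2 - 1) * ((r : ℂ) ^ 2 - r) := by
  rw [Fintype.sum_prod_type]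
  have h1 : ∀ y : Q, ∑ z : Q, (if Subgroup.closure {y, z} = N then (1 : ℂ) else 0) =
      ((if y ∈ N then (1 : ℂ) else 0) - if y = 1 then (1 : ℂ) else 0) * ((r : ℂ) ^ 2 - r) := by
    intro y
    rw [Finset.sum_congr rfl fun z _ => JRR_ind hr hN hexp y z, ← Finset.mul_sum,
      Finset.sum_sub_distrib, JRR_card, JRR_card, hN]
    by_cases hy : y ∈ N
    · by_cases hy1 : y = 1
      · rw [if_pos hy, if_pos hy1, sub_self, zero_mul, zero_mul]
      · rw [JRR_ord hr hexp y hy hy1]
        push_cast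
        rfl
    · have hy1 : y ≠ 1 := fun h => hy (h ▸ N.one_mem)
      rw [if_neg hy, if_neg hy1, sub_self, zero_mul, zero_mul]
  rw [Finset.sum_congr rfl fun y _ => h1 y, ← Finset.sum_mul, Finset.sum_sub_distrib, JRR_card, hN,
    Finset.sum_ite_eq' Finset.univ (1 : Q), if_pos (Finset.mem_univ _)]
  push_cast
  rfl

end

open Classical in
/-- row JRR -/
theorem JRR (hKQR : KQR_stmt) : JRR_stmt := by
  intro Q _ _ _ r hr N hN hexp ω hω
  have : Fintype Q := Fintype.ofFinite Q
  have hJ : JQ N ω = ∑ x : Q × Q,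
      (if Subgroup.closure {x.1, x.2} = N then (1 : ℂ) else 0) * ((ω x.1 x.2 : ℂˣ) : ℂ) := by
    unfold JQ
    rw [finsum_mem_def, finsum_eq_sum_of_fintype]
    refine Finset.sum_congr rfl fun x _ => ?_
    rw [Set.indicator_apply, ite_mul, one_mul, zero_mul]
    rfl
  have hK : KQ N ω = ∑ x : Q × Q,
      (if x.1 ∈ N then (1 : ℂ) else 0) * (if x.2 ∈ N then (1 : ℂ) else 0) *
        ((ω x.1 x.2 : ℂˣ) : ℂ) := by
    unfold KQ
    rw [finsum_mem_def, finsum_eq_sum_of_fintype]
    refine Finset.sum_congr rfl fun x _ => ?_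
    rw [Set.indicator_apply]
    by_cases h1 : x.1 ∈ N
    · by_cases h2 : x.2 ∈ N
      · rw [if_pos h1, if_pos h2, if_pos (show x ∈ {x : Q × Q | x.1 ∈ N ∧ x.2 ∈ N} from ⟨h1, h2⟩),
          one_mul, one_mul]
      · rw [if_neg h2, if_neg (fun h : x ∈ {x : Q × Q | x.1 ∈ N ∧ x.2 ∈ N} => h2 h.2), mul_zero,
          zero_mul]
    · rw [if_neg h1, if_neg (fun h : x ∈ {x : Q × Q | x.1 ∈ N ∧ x.2 ∈ N} => h1 h.1), zero_mul,
        zero_mul]
  have hg := JRR_sum hr hN hexp
  split_ifs with htriv
  · rw [← hg, hJ]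
    refine Finset.sum_congr rfl fun x _ => ?_
    split_ifs with h1
    · have h2 : x.1 ∈ N := by
        rw [← h1]
        exact Subgroup.subset_closure (Set.mem_insert _ _)
      have h3 : x.2 ∈ N := by
        rw [← h1]
        exact Subgroup.subset_closure (Set.mem_insert_of_mem _ rfl)
      rw [htriv _ h2 _ h3, Units.val_one, one_mul]
    · rw [zero_mul]
  · -- the pairs which do not generate
    have hdiff : KQ N ω - JQ N ω = ∑ x : Q × Q,
        ((if x.1 ∈ N then (1 : ℂ) else 0) * (if x.2 ∈ N then (1 : ℂ) else 0) -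
          (if Subgroup.closure {x.1, x.2} = N then (1 : ℂ) else 0)) := by
      rw [hK, hJ, ← Finset.sum_sub_distrib]
      refine Finset.sum_congr rfl fun x _ => ?_
      by_cases h1 : x.1 ∈ N
      · by_cases h2 : x.2 ∈ N
        · by_cases h3 : Subgroup.closure {x.1, x.2} = N
          · rw [if_pos h1, if_pos h2, if_pos h3]
            ring
          · have h4 : ω x.1 x.2 = 1 := by
              by_cases h5 : x.1 = 1
              · rw [h5]
                exact JRR_one_left hω _ h2
              · refine JRR_cyc hω _ _ h1 ?_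
                by_contra h6
                exact h3 ((JRR_gen hr hN hexp _ _ h1 h5 h2).2 h6)
            rw [h4, Units.val_one, mul_one, mul_one]
        · have h3 : Subgroup.closure {x.1, x.2} ≠ N := by
            intro h
            apply h2
            rw [← h]
            exact Subgroup.subset_closure (Set.mem_insert_of_mem _ rfl)
          rw [if_neg h2, if_neg h3]
          ring
      · have h3 : Subgroup.closure {x.1, x.2} ≠ N := by
          intro h
          apply h1
          rw [← h]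
          exact Subgroup.subset_closure (Set.mem_insert _ _)
        rw [if_neg h1, if_neg h3]
        ring
    have hNN : ∑ x : Q × Q, (if x.1 ∈ N then (1 : ℂ) else 0) * (if x.2 ∈ N then (1 : ℂ) else 0) =
        ((r : ℂ) ^ 2) * (r : ℂ) ^ 2 := by
      rw [Fintype.sum_prod_type]
      refine (Finset.sum_mul_sum (Finset.univ : Finset Q) (Finset.univ : Finset Q)
        (fun y => if y ∈ N then (1 : ℂ) else 0) (fun z => if z ∈ N then (1 : ℂ) else 0)).symm.trans ?_
      rw [JRR_card, hN]
      push_cast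
      rfl
    rw [Finset.sum_sub_distrib, hNN, hg] at hdiff
    have hRd : Rd N ω = {1} := by
      apply Set.eq_singleton_iff_unique_mem.2
      refine ⟨⟨N.one_mem, fun y hy => JRR_one_right hω y hy⟩, ?_⟩
      rintro z ⟨hz, hz'⟩
      by_contra hz1
      apply htriv
      intro y₁ hy₁ y₂ hy₂
      by_cases h1 : y₁ ∈ Subgroup.zpowers z
      · have h2 : Subgroup.zpowers z ≤ JRR_L hω y₂ hy₂ := by
          rw [Subgroup.zpowers_le]
          exact ⟨hz, JRR_anti hω y₂ z hy₂ hz (hz' y₂ hy₂)⟩
        exact (h2 h1).2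
      · have h2 := (JRR_gen hr hN hexp z y₁ hz hz1 hy₁).2 h1
        have h3 : Subgroup.closure {z, y₁} ≤ JRR_R hω y₁ hy₁ := by
          rw [Subgroup.closure_le]
          rintro x (rfl | rfl)
          · exact ⟨hz, hz' y₁ hy₁⟩
          · exact ⟨hy₁, hω.self _ hy₁⟩
        rw [h2] at h3
        exact (h3 hy₂).2
    have hKv := hKQR Q N ω hω
    rw [hRd, hN] at hKv
    have hone : Nat.card ({1} : Set Q) = 1 := by simp
    rw [hone] at hKv
    rw [hKv] at hdiff
    push_cast at hdiff
    linear_combination (-1 : ℂ) * hdiff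

end Pool.Agent.NQ
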